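import Pool.Agent.L0h17.WT.Stm

/-! Module FAC of the board WT: a prime factor through a weighted centre. -/

set_option autoImplicit false
set_option linter.unusedSectionVars false

namespace Pool.Agent.L0h62.WT

open MvPolynomial Pool.Agent.L0h21.SN Pool.Agent.L0h21.RW Pool.Agent.N103.V
open Pool.Agent.H628R4.TP

variable {V J : Type} [Fintype V] [DecidableEq V] [Fintype J] [DecidableEq J]

variable {f : J → MvPolynomial V ℂ} {P : V → ℂ} {w : V → ℕ} {e : J → ℕ}
    {g : J → MvPolynomial V ℂ} {h : MvPolynomial V ℂ}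

theorem snc_grad {f : J → MvPolynomial V ℂ} {Q : V → ℂ} (hQ : SNCAt' f Q) (j : J)
    (hj : eval Q (f j) = 0) : ∃ v, eval Q (pderiv v (f j)) ≠ 0 := by
  have h1 := hQ.ne_zero ⟨j, by rw [aeval_ev]; exact hj⟩
  by_contra hcon
  push Not at hcon
  apply h1
  funext v
  rw [Pi.zero_apply, aeval_ev]
  exact hcon v

/-- Different components through the point have no common prime factors through the point. -/
theorem snc_not_dvd {f : J → MvPolynomial V ℂ} {Q : V → ℂ} (hQ : SNCAt' f Q) (i j : J)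
    (hij : i ≠ j) (hj : eval Q (f j) = 0) (q r : MvPolynomial V ℂ) (hqr : f j = q * r)
    (hq : eval Q q = 0) (hr : eval Q r ≠ 0) : ¬ q ∣ f i := by
  rintro ⟨s, hs⟩
  have hi : eval Q (f i) = 0 := by rw [hs, map_mul, hq, zero_mul]
  have hgi : ∀ v, eval Q (pderiv v (f i)) = eval Q s * eval Q (pderiv v q) := by
    intro v
    rw [hs, Derivation.leibniz, map_add, smul_eq_mul, smul_eq_mul, map_mul, map_mul, hq, zero_mul,
      zero_add]
  have hgj : ∀ v, eval Q (pderiv v (f j)) = eval Q r * eval Q (pderiv v q) := by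
    intro v
    rw [hqr, Derivation.leibniz, map_add, smul_eq_mul, smul_eq_mul, map_mul, map_mul, hq,
      zero_mul, zero_add]
  have h1 := linearIndependent_iff'.1 hQ
    {⟨i, by rw [aeval_ev]; exact hi⟩, ⟨j, by rw [aeval_ev]; exact hj⟩}
    (fun t => if t.1 = i then eval Q r else - eval Q s) (by
      rw [Finset.sum_pair (fun h => hij (congrArg Subtype.val h))]
      simp only [if_true, if_neg hij.symm]
      funext v
      simp only [Pi.add_apply, Pi.smul_apply, smul_eq_mul, Pi.zero_apply, aeval_ev, hgi, hgj]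
      ring) ⟨i, by rw [aeval_ev]; exact hi⟩ (Finset.mem_insert_self _ _)
  simp only [if_true] at h1
  exact hr h1

theorem prime_not_dvd_C {q : MvPolynomial V ℂ} (hq : Prime q) {c : ℂ} (hc : c ≠ 0) :
    ¬ q ∣ C c := by
  intro h
  refine hq.not_isUnit (isUnit_of_dvd_unit h ?_)
  exact (isUnit_iff_ne_zero.2 hc).map C

/-- A zero with normal crossings of a polynomial that vanishes at the origin. -/
theorem zero_gen (H : CentreAt f P w e g h) (p : MvPolynomial V ℂ) (hp : eval 0 p = 0) :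
    ∃ Q : V → ℂ, SNCAt' g Q ∧ aeval Q p = 0 := by
  classical
  have hne : ∃ v, 0 < w v := by
    have : 0 < Fintype.card (Pos w) := by have := H.card; omega
    obtain ⟨v⟩ := Fintype.card_pos_iff.mp this
    exact ⟨v.1, v.2⟩
  have hpar : ∀ Q : V → ℂ, (∀ v, w v = 0 → Q v = 0) → aeval Q h ≠ 0 := by
    intro Q hQ
    rw [aeval_ev]
    have h3 : eval Q h = eval 0 h := by
      refine eval₂Hom_congr' rfl (fun i hi _ => ?_) rfl
      obtain ⟨d, hd, hid⟩ := (mem_vars_iff_mem_support i).mp hi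
      have h4 := H.hom (mem_support_iff.mp hd)
      rw [Finsupp.weight_apply, Finsupp.sum_fintype _ _ (by simp)] at h4
      have h5 := (Finset.sum_eq_zero_iff.mp h4) i (Finset.mem_univ i)
      rw [smul_eq_mul, mul_eq_zero] at h5
      exact hQ i (h5.resolve_left (Finsupp.mem_support_iff.mp hid))
    rw [h3]
    exact H.ne
  suffices hs : ∃ Q : V → ℂ, (∃ v, 0 < w v ∧ Q v ≠ 0) ∧
      eval (fun v => if 0 < w v then Q v else 0) p = 0 by
    obtain ⟨Q, ⟨v, hv, hQv⟩, hQ⟩ := hs
    refine ⟨fun v => if 0 < w v then Q v else 0, H.snc _ (hpar _ fun v hv => ?_) ⟨v, hv, ?_⟩, ?_⟩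
    · simp [hv]
    · simp only [if_pos hv]
      exact hQv
    · rw [aeval_ev]
      exact hQ
  set r : MvPolynomial V ℂ := aeval (fun v => if 0 < w v then (X v : MvPolynomial V ℂ) else 0)
    p with hr
  have hreval : ∀ Q : V → ℂ, eval Q r = eval (fun v => if 0 < w v then Q v else 0) p := by
    intro Q
    have h2 : ∀ q : MvPolynomial V ℂ,
        eval Q (aeval (fun v => if 0 < w v then (X v : MvPolynomial V ℂ) else 0) q) =
        eval (fun v => if 0 < w v then Q v else 0) q := by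
      intro q
      induction q using MvPolynomial.induction_on with
      | C a => simp
      | add f g hf hg => rw [map_add, map_add, map_add, hf, hg]
      | mul_X f i hf =>
        rw [map_mul, map_mul, map_mul, hf, aeval_X, eval_X]
        by_cases hi : 0 < w i
        · rw [if_pos hi, if_pos hi, eval_X]
        · rw [if_neg hi, if_neg hi, map_zero]
    exact h2 p
  have hzero : eval 0 r = 0 := by
    rw [hreval]
    have h2 : (fun v => if 0 < w v then (0 : V → ℂ) v else 0) = 0 := by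
      funext v; simp
    rw [h2, hp]
  by_cases hr0 : r = 0
  · obtain ⟨v, hv⟩ := hne
    refine ⟨fun _ => 1, ⟨v, hv, one_ne_zero⟩, ?_⟩
    rw [← hreval, hr0, map_zero]
  have hru : ¬ IsUnit r := by
    intro hu
    rw [MvPolynomial.isUnit_iff_eq_C_of_isReduced] at hu
    obtain ⟨a, ha, ha2⟩ := hu
    rw [ha2, eval_C] at hzero
    rw [hzero] at ha
    exact not_isUnit_zero ha
  obtain ⟨q, hq, a, ha⟩ := WfDvdMonoid.exists_irreducible_factor hru hr0
  obtain ⟨Q, hQ, hQ2⟩ := exists_point (fun _ : Unit => w)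
    (fun v i i' _ _ => rfl) (fun _ => H.card) q hq
  refine ⟨Q, hQ (), ?_⟩
  rw [← hreval, ha, map_mul]
  rw [aeval_ev] at hQ2
  rw [hQ2, zero_mul]

/-- A prime factor which vanishes at the point. -/
theorem exists_prime_zero (F : MvPolynomial V ℂ) (hF : F ≠ 0) (Q : V → ℂ) (h : eval Q F = 0) :
    ∃ q r : MvPolynomial V ℂ, Prime q ∧ F = q * r ∧ eval Q q = 0 := by
  obtain ⟨s, hs, hs2⟩ := UniqueFactorizationMonoid.exists_prime_factors F hF
  have h1 : eval Q s.prod = 0 := by
    obtain ⟨u, hu⟩ := hs2.symm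
    rw [← hu, map_mul, h, zero_mul]
  have h2 : ∃ q ∈ s, eval Q q = 0 := by
    rw [map_multiset_prod, Multiset.prod_eq_zero_iff, Multiset.mem_map] at h1
    exact h1
  obtain ⟨q, hq, hq0⟩ := h2
  obtain ⟨r, hr⟩ : q ∣ F := (Multiset.dvd_prod hq).trans hs2.dvd
  exact ⟨q, r, hs q hq, hr, hq0⟩

theorem trl_zero (q : MvPolynomial V ℂ) : trl 0 q = q := by
  unfold trl
  have : (fun v => (X v : MvPolynomial V ℂ) + C ((0 : V → ℂ) v)) = X := by
    funext v; simp
  rw [this]
  exact aeval_X_left_apply q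

/-- The low form of a multiple. -/
theorem low_dvd (w : V → ℕ) {a b : ℕ} {q q' F G s : MvPolynomial V ℂ} (hq : LowC w a q q')
    (hq' : q' ≠ 0) (hF : LowC w b F G) (hG : G ≠ 0) (hs : F = q * s) :
    ∃ c s', LowC w c s s' ∧ s' ≠ 0 ∧ G = q' * s' := by
  have hs0 : s ≠ 0 := by
    rintro rfl
    rw [mul_zero] at hs
    apply hG
    rw [← hF.2, hs, map_zero]
  obtain ⟨c, s', hs', hs'0⟩ := exists_low w s hs0
  have h3 := hq.mul hs'
  rw [← hs] at h3
  exact ⟨c, s', hs', hs'0, ((h3.unique hF (mul_ne_zero hq' hs'0) hG).2).symm⟩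

theorem t_FAC : Pool.Agent.L0h17.WT.S_FAC := by
  intro V J _ _ _ _ f w e g h H m hm c hc j hj
  have hlow : ∀ i, LowC w (e i) (f i) (g i) := by
    intro i
    have := H.low i
    rwa [trl_zero] at this
  obtain ⟨q, r, hq, hqr, hq0⟩ := exists_prime_zero (f j) (H.f_ne j) 0 hj
  obtain ⟨a, q', hlq, hq'0⟩ := exists_low w q hq.ne_zero
  obtain ⟨b, r', hlr, hr'0, hgj⟩ := low_dvd w hlq hq'0 (hlow j) (H.g_ne j) hqr
  have hq'z : eval 0 q' = 0 := by
    rw [← low_eval w 0 (fun v _ => rfl) a _ _ hlq, hq0]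
  obtain ⟨Q, hQ, hQq⟩ := zero_gen H q' hq'z
  rw [aeval_ev] at hQq
  have hQj : eval Q (g j) = 0 := by rw [hgj, map_mul, hQq, zero_mul]
  obtain ⟨v, hv⟩ := snc_grad hQ j hQj
  have hQr : eval Q r' ≠ 0 := by
    intro h3
    apply hv
    rw [hgj, Derivation.leibniz, map_add, smul_eq_mul, smul_eq_mul, map_mul, map_mul, hQq, h3,
      zero_mul, zero_mul, add_zero]
  have hnr : ¬ q ∣ r := by
    rintro ⟨s, hs⟩
    obtain ⟨c', s', -, -, h4⟩ := low_dvd w hlq hq'0 hlr hr'0 hs
    apply hQr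
    rw [h4, map_mul, hQq, zero_mul]
  have hnf : ∀ i, i ≠ j → ¬ q ∣ f i := by
    rintro i hij ⟨s, hs⟩
    obtain ⟨c', s', -, -, h4⟩ := low_dvd w hlq hq'0 (hlow i) (H.g_ne i) hs
    exact snc_not_dvd hQ i j hij hQj q' r' hgj hQq hQr ⟨s', h4⟩
  refine ⟨q, C c * r ^ m j * ∏ i ∈ Finset.univ.erase j, f i ^ m i, hq, hq0, ?_, ?_, ?_⟩
  · rw [← Finset.mul_prod_erase Finset.univ (fun j => f j ^ m j) (Finset.mem_univ j), hqr,
      mul_pow]
    ring
  · intro h
    rcases hq.dvd_or_dvd h with h | h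
    · rcases hq.dvd_or_dvd h with h | h
      · exact prime_not_dvd_C hq hc h
      · exact hnr (hq.dvd_of_dvd_pow h)
    · obtain ⟨i, hi, h⟩ := (Prime.dvd_finsetProd_iff hq _).1 h
      exact hnf i (Finset.ne_of_mem_erase hi) (hq.dvd_of_dvd_pow h)
  · intro i hij hi
    rw [map_mul, map_prod]
    refine mul_eq_zero_of_right _ (Finset.prod_eq_zero
      (Finset.mem_erase.2 ⟨hij, Finset.mem_univ i⟩) ?_)
    rw [map_pow, hi, zero_pow (hm i).ne']

end Pool.Agent.L0h62.WT
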